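import Mathlib
import Pool.Agent.Lib.MP_e45b43_lc.Basic
import Pool.Agent.Lib.MP_e45b43_lc.Complex

/-!
# Every good graph contains a good clique complex with more than continuum branching
-/

universe u

namespace Pool.Agent.Results.MP_e45b43_lc.GoodComplex

open Cardinal Pool.Agent.Lib.MP_e45b43_lc

/-- Let `G` be a good graph and let `l` be a cardinal such that `l ≤ 2 ^ ℵ₀`, or such that no
induced subgraph of `G` with at most `l` vertices is good. For every colouring `c` of the edges
with countably many colours there are a colour `n` and a family `T` of finite cliques, all of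
whose edges have colour `n`, which contains the empty set, is closed under subsets, in which
every member has more than `l` one-vertex extensions, and which is itself good: for every
colouring `d` of the edges with countably many colours there is an infinite clique `S` all of
whose edges have the same `d`-colour and all of whose finite subsets belong to `T`. -/
theorem result {V : Type u} (G : SimpleGraph V) (hG : Good G) (l : Cardinal.{u})
    (hl : l ≤ 𝔠 ∨ ∀ W : Set V, #↥W ≤ l → ¬ Good (G.induce W)) (c : G.edgeSet → ℕ) :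
    ∃ (n : ℕ) (T : Set (Set V)), ∅ ∈ T ∧ (∀ t ∈ T, ∀ t' ⊆ t, t' ∈ T) ∧
      (∀ t ∈ T, t.Finite ∧ ∀ x ∈ t, ∀ y ∈ t, x ≠ y → ∃ h : G.Adj x y, c ⟨s(x, y), h⟩ = n) ∧
      (∀ t ∈ T, l < #{x : V // x ∉ t ∧ insert x t ∈ T}) ∧
      ∀ d : G.edgeSet → ℕ, ∃ (S : Set V) (hS : G.IsClique S), S.Infinite ∧
        (∀ t ⊆ S, t.Finite → t ∈ T) ∧
        ∃ k : ℕ, ∀ (x : V) (hx : x ∈ S) (y : V) (hy : y ∈ S) (hxy : x ≠ y),
          d ⟨s(x, y), hS hx hy hxy⟩ = k :=
  Tree.main_complex G hG l hl c

end Pool.Agent.Results.MP_e45b43_lc.GoodComplex
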