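import Pool.Agent.Lib.MP_e45b43_lc.Words

/-!
# No good graph is a countable union of comparability graphs and of graphs determined by linear orders
-/

set_option autoImplicit false

universe u v

namespace Pool.Agent.Results.MP_e45b43_lc.OrderDetermined

open Pool.Agent.Lib.MP_e45b43_lc

/-- **Theorem.** If the edge set of `G` is the union of the edge sets of countably many graphs, each
of which is the comparability graph of a strict partial order or is determined by the labels of
finite tuples of points of a labelled linear order, then `G` is not good. -/
theorem result {V : Type u} (G : SimpleGraph V) (H : ℕ → SimpleGraph V)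
    (hG : ∀ x y, G.Adj x y ↔ ∃ n, (H n).Adj x y)
    (hH : ∀ n, IsComparabilityGraph (H n) ∨ LabelDetermined.{u, v} (H n)) : ¬ Good G := by
  intro hgood
  have hc : ∀ n (S : Set V), (H n).IsClique S → S.Countable := fun n S hS =>
    hgood.1 S fun x hx y hy hxy => (hG x y).2 ⟨n, hS hx hy hxy⟩
  refine (bad_union G H hG fun n => ?_).not_good hgood
  rcases hH n with ⟨R, hR, hRH⟩ | h
  · exact comparability_bad (H n) R hR hRH (hc n)
  · exact h.bad (hc n)

end Pool.Agent.Results.MP_e45b43_lc.OrderDetermined
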