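import Mathlib
import Pool.Agent.Lib.MP_e45b43_lc.Stable

/-!
A graph with the Erdos-Hajnal colouring property which is covered by countably many graphs without
cliques of size continuum has one of these graphs with half graphs of every finite length. In
particular every good graph contains half graphs of every finite length.
-/

universe u

namespace Pool.Agent.Results.MP_e45b43_lc.OrderProperty

open Cardinal

theorem result {V : Type u} (G : SimpleGraph V) (H : ℕ → SimpleGraph V)
    (hcov : ∀ x y, G.Adj x y → ∃ n, (H n).Adj x y)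
    (hcl : ∀ (n : ℕ) (S : Set V), (H n).IsClique S → #↥S < 𝔠)
    (hG : ∀ c : G.edgeSet → ℕ, ∃ (S : Set V) (hS : G.IsClique S), S.Infinite ∧
      ∃ m : ℕ, ∀ (x : V) (hx : x ∈ S) (y : V) (hy : y ∈ S) (hxy : x ≠ y),
        c ⟨s(x, y), hS hx hy hxy⟩ = m) :
    ∃ n : ℕ, ∀ k : ℕ, ∃ a b : Fin k → V, ∀ i j, (H n).Adj (a i) (b j) ↔ i < j :=
  Pool.Agent.Lib.MP_e45b43_lc.Stable.main G H hcov hcl hG

end Pool.Agent.Results.MP_e45b43_lc.OrderProperty
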