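import Mathlib
import Pool.Agent.Lib.MP_e45b43_lc.Basic

/-!
# Every good graph contains one of two explicit countable split graphs
-/

universe u

namespace Pool.Agent.Results.MP_e45b43_lc.SplitPattern

open Pool.Agent.Lib.MP_e45b43_lc

/-- The infinite half split graph: the vertices `inl i` form a clique, the vertices `inr j` form
an independent set, and `inl i` is adjacent to `inr j` exactly when `i ≤ j`. -/
def halfSplit : SimpleGraph (ℕ ⊕ ℕ) where
  Adj a b := match a, b with
    | Sum.inl i, Sum.inl j => i ≠ j
    | Sum.inl i, Sum.inr j => i ≤ j
    | Sum.inr j, Sum.inl i => i ≤ j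
    | Sum.inr _, Sum.inr _ => False
  symm := by
    constructor
    rintro (a | a) (b | b) h
    · exact Ne.symm h
    · exact h
    · exact h
    · exact h
  loopless := by
    constructor
    rintro (a | a) h
    · exact h rfl
    · exact h

/-- The infinite matching split graph: the vertices `inl i` form a clique, the vertices `inr j`
form an independent set, and `inl i` is adjacent to `inr j` exactly when `i = j`. -/
def matchSplit : SimpleGraph (ℕ ⊕ ℕ) where
  Adj a b := match a, b with
    | Sum.inl i, Sum.inl j => i ≠ j
    | Sum.inl i, Sum.inr j => i = j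
    | Sum.inr j, Sum.inl i => i = j
    | Sum.inr _, Sum.inr _ => False
  symm := by
    constructor
    rintro (a | a) (b | b) h
    · exact Ne.symm h
    · exact h
    · exact h
    · exact h
  loopless := by
    constructor
    rintro (a | a) h
    · exact h rfl
    · exact h

/-- If all cliques of `G` are countable and `G` contains neither split graph as an induced
subgraph, then `G` has a symmetric colouring of pairs without a monochromatic injective sequence
of pairwise adjacent vertices. -/
theorem exists_colouring {V : Type u} (G : SimpleGraph V)
    (hcount : ∀ S : Set V, G.IsClique S → S.Countable)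
    (hno : ¬ (Nonempty (halfSplit ↪g G) ∨ Nonempty (matchSplit ↪g G))) :
    ∃ f : V → V → ℕ, (∀ x y, f x y = f y x) ∧
      ∀ x : ℕ → V, Function.Injective x → (∀ i j, i ≠ j → G.Adj (x i) (x j)) →
        ∀ n, ¬ (∀ i j, i ≠ j → f (x i) (x j) = n) := by
  classical
  obtain ⟨_, _⟩ := exists_wellFoundedLT V
  have wf : WellFounded (fun a b : V => a < b) := wellFounded_lt
  -- greedy cliques in the lower neighbourhoods
  have hex : ∀ x, ∃ K : Set V, ∀ z, z ∈ K ↔ (z < x ∧ G.Adj z x) ∧
      ∀ z' ∈ K, z' < z → G.Adj z' z := fun x => exists_greedy G.Adj {z | z < x ∧ G.Adj z x}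
  choose K hK using hex
  have hclique : ∀ x, (K x).Countable := by
    intro x
    apply hcount
    intro a ha b hb hab
    rcases lt_or_gt_of_ne hab with hlt | hgt
    · exact ((hK x b).1 hb).2 a ha hlt
    · exact (((hK x a).1 ha).2 b hb hgt).symm
  choose e he using fun x => exists_numbering (K x) (hclique x)
  -- if the first difference of `K x`, `K y` (with `x < y`) is in `K x` then it is not adjacent to y
  have hnadj : ∀ x y d, x < y → FirstDiff (K x) (K y) d → ¬ G.Adj d y := by
    intro x y d hxy hd hadj
    apply hd.2.1
    rw [hK]
    have h1 := (hK x d).1 hd.1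
    refine ⟨⟨h1.1.1.trans hxy, hadj⟩, fun z' hz' hlt => ?_⟩
    exact h1.2 z' ((hd.2.2 z' hlt).2 hz') hlt
  have hKne : ∀ x y, x < y → G.Adj x y → K x ≠ K y := by
    intro x y hxy hadj heq
    have hx : x ∈ K y := by
      rw [hK]
      refine ⟨⟨hxy, hadj⟩, fun z' hz' _ => ?_⟩
      rw [← heq] at hz'
      exact ((hK x z').1 hz').1.2
    rw [← heq] at hx
    exact lt_irrefl x ((hK x x).1 hx).1.1
  -- inverse numbering
  let inv : V → ℕ → V := fun y n => if h : ∃ v, v ∈ K y ∧ e y v = n then h.choose else y
  have hinv : ∀ y v, v ∈ K y → inv y (e y v) = v := by
    intro y v hv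
    have h : ∃ w, w ∈ K y ∧ e y w = e y v := ⟨v, hv, rfl⟩
    have h1 : inv y (e y v) = h.choose := by simp only [inv]; rw [dif_pos h]
    rw [h1]
    exact he y h.choose_spec.1 hv h.choose_spec.2
  -- the recursive colouring
  let Body : (y : V) → ((z : V) → z < y → V → ℕ) → V → ℕ := fun y ih x =>
    if ∃ d, FirstDiff (K y) (K x) d then Nat.pair 0 (e y (fd (K y) (K x) y))
    else
      Nat.pair 1 (Nat.pair (e x (fd (K x) (K y) x))
        (Nat.pair (if G.Adj (inv y (e x (fd (K x) (K y) x))) x then 1 else 0)
          (Nat.pair (if inv y (e x (fd (K x) (K y) x)) = x then 1 else 0)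
            (if h : inv y (e x (fd (K x) (K y) x)) < y then
              (if G.Adj (fd (K x) (K y) x) (inv y (e x (fd (K x) (K y) x))) then
                1 + ih (inv y (e x (fd (K x) (K y) x))) h (fd (K x) (K y) x) else 0) else 0))))
  let F : V → V → ℕ := WellFounded.fix wf Body
  have hF : ∀ y x, F y x = Body y (fun z _ => F z) x := by
    intro y x
    have := WellFounded.fix_eq wf Body y
    exact congrFun this x
  let f : V → V → ℕ := fun x y => if x < y then F y x else if y < x then F x y else 0
  have hf : ∀ x y, f x y = f y x := by
    intro x y
    simp only [f]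
    rcases lt_trichotomy x y with h | h | h
    · simp [h, h.not_gt]
    · simp [h]
    · simp [h, h.not_gt]
  -- main claim
  have main : ∀ a : V, ∀ x : ℕ → V, x 0 = a → (∀ i j, i < j → x i < x j) →
      (∀ i j, i < j → G.Adj (x i) (x j)) → (∃ m, ∀ i j, i < j → F (x j) (x i) = m) →
      Nonempty (halfSplit ↪g G) ∨ Nonempty (matchSplit ↪g G) := by
    intro a
    induction a using WellFounded.induction wf with
    | _ a IH =>
    rintro x hx0 hmono hadj ⟨m, hm⟩
    by_cases htag : (Nat.unpair m).1 = 0
    · -- the larger vertex always wins: impossible
      exfalso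
      have hD : ∀ i j, i < j → ∃ d, FirstDiff (K (x j)) (K (x i)) d := by
        intro i j hij
        by_contra hcon
        have h1 := hm i j hij
        rw [hF] at h1
        simp only [Body, if_neg hcon] at h1
        rw [← h1] at htag
        simp at htag
      refine core K e he x (Nat.unpair m).2 hD ?_
      intro i j hij
      have h1 := hm i j hij
      rw [hF] at h1
      simp only [Body, if_pos (hD i j hij)] at h1
      rw [← h1]
      simp
    · -- the smaller vertex always wins
      have hD1 : ∀ i j, i < j → ¬ ∃ d, FirstDiff (K (x j)) (K (x i)) d := by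
        intro i j hij hcon
        have h1 := hm i j hij
        rw [hF] at h1
        simp only [Body, if_pos hcon] at h1
        rw [← h1] at htag
        simp at htag
      have hD2 : ∀ i j, i < j → ∃ d, FirstDiff (K (x i)) (K (x j)) d := by
        intro i j hij
        rcases exists_firstDiff (K (x i)) (K (x j)) (hKne _ _ (hmono i j hij) (hadj i j hij))
          with h1 | h1
        · exact h1
        · exact absurd h1 (hD1 i j hij)
      obtain ⟨n, hn⟩ : ∃ n, n = (Nat.unpair (Nat.unpair m).2).1 := ⟨_, rfl⟩
      obtain ⟨A, hA⟩ : ∃ A, A = (Nat.unpair (Nat.unpair (Nat.unpair m).2).2).1 := ⟨_, rfl⟩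
      obtain ⟨B, hB⟩ : ∃ B, B = (Nat.unpair (Nat.unpair (Nat.unpair (Nat.unpair m).2).2).2).1 :=
        ⟨_, rfl⟩
      obtain ⟨C, hC⟩ : ∃ C, C = (Nat.unpair (Nat.unpair (Nat.unpair (Nat.unpair m).2).2).2).2 :=
        ⟨_, rfl⟩
      -- rewrite the colour equations
      have hcol : ∀ i j, i < j → Nat.pair 1 (Nat.pair (e (x i) (fd (K (x i)) (K (x j)) (x i)))
        (Nat.pair (if G.Adj (inv (x j) (e (x i) (fd (K (x i)) (K (x j)) (x i)))) (x i)
            then 1 else 0)
          (Nat.pair (if inv (x j) (e (x i) (fd (K (x i)) (K (x j)) (x i))) = x i then 1 else 0)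
            (if inv (x j) (e (x i) (fd (K (x i)) (K (x j)) (x i))) < x j then
              (if G.Adj (fd (K (x i)) (K (x j)) (x i))
                  (inv (x j) (e (x i) (fd (K (x i)) (K (x j)) (x i)))) then
                1 + F (inv (x j) (e (x i) (fd (K (x i)) (K (x j)) (x i))))
                  (fd (K (x i)) (K (x j)) (x i)) else 0) else 0)))) = m := by
        intro i j hij
        have h1 := hm i j hij
        rw [hF] at h1
        simp only [Body, if_neg (hD1 i j hij)] at h1
        simpa only [dite_eq_ite] using h1
      have hnn : ∀ i j, i < j → e (x i) (fd (K (x i)) (K (x j)) (x i)) = n := by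
        intro i j hij
        rw [hn, ← hcol i j hij]
        simp
      let d : ℕ → V := fun i => fd (K (x i)) (K (x (i + 1))) (x i)
      have hd1 : ∀ i j, i < j → fd (K (x i)) (K (x j)) (x i) = d i := by
        intro i j hij
        apply he (x i) (fd_spec (x i) (hD2 i j hij)).1
          (fd_spec (x i) (hD2 i (i + 1) (by omega))).1
        rw [hnn i j hij, hnn i (i + 1) (by omega)]
      have hd : ∀ i j, i < j → FirstDiff (K (x i)) (K (x j)) (d i) := by
        intro i j hij
        rw [← hd1 i j hij]
        exact fd_spec (x i) (hD2 i j hij)
      have hdK : ∀ i, d i ∈ K (x i) := fun i => (hd i (i + 1) (by omega)).1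
      have hen : ∀ i, e (x i) (d i) = n := fun i => hnn i (i + 1) (by omega)
      have hinvd : ∀ j, inv (x j) n = d j := by
        intro j
        rw [← hen j]
        exact hinv (x j) (d j) (hdK j)
      have hdlt : ∀ i, d i < x i := fun i => ((hK (x i) (d i)).1 (hdK i)).1.1
      have hdadj : ∀ i, G.Adj (d i) (x i) := fun i => ((hK (x i) (d i)).1 (hdK i)).1.2
      have hasc : ∀ i j, i < j → d i < d j := fun i j hij =>
        ascending (fun i => K (x i)) d hd hij
      have hcol2 : ∀ i j, i < j → Nat.pair 1 (Nat.pair n
        (Nat.pair (if G.Adj (d j) (x i) then 1 else 0)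
          (Nat.pair (if d j = x i then 1 else 0)
              (if G.Adj (d i) (d j) then 1 + F (d j) (d i) else 0)))) = m := by
        intro i j hij
        have h1 := hcol i j hij
        rw [hd1 i j hij, hen i, hinvd j, if_pos (hdlt j)] at h1
        exact h1
      have hAeq : ∀ i j, i < j → (if G.Adj (d j) (x i) then 1 else 0) = A := by
        intro i j hij
        rw [hA, ← hcol2 i j hij]
        simp
      have hBeq : ∀ i j, i < j → (if d j = x i then 1 else 0) = B := by
        intro i j hij
        rw [hB, ← hcol2 i j hij]
        simp
      have hCeq : ∀ i j, i < j → (if G.Adj (d i) (d j) then 1 + F (d j) (d i) else 0) = C := by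
        intro i j hij
        rw [hC, ← hcol2 i j hij]
        simp
      have hdx : ∀ i j, i < j → d j ≠ x i := by
        have hB0 : B = 0 := by
          by_contra hB0
          have h02 : d 2 = x 0 := by
            by_contra hcon
            have := hBeq 0 2 (by omega)
            rw [if_neg hcon] at this
            exact hB0 this.symm
          have h12 : d 2 = x 1 := by
            by_contra hcon
            have := hBeq 1 2 (by omega)
            rw [if_neg hcon] at this
            exact hB0 this.symm
          have := hmono 0 1 (by omega)
          rw [← h02, ← h12] at this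
          exact lt_irrefl _ this
        intro i j hij hcon
        have := hBeq i j hij
        rw [if_pos hcon, hB0] at this
        exact one_ne_zero this
      by_cases hC0 : C = 0
      · -- the `d i` are independent
        have hind : ∀ i j, i < j → ¬ G.Adj (d i) (d j) := by
          intro i j hij hcon
          have := hCeq i j hij
          rw [if_pos hcon, hC0] at this
          omega
        have hind' : ∀ i j, ¬ G.Adj (d i) (d j) := by
          intro i j hcon
          rcases lt_trichotomy i j with h | h | h
          · exact hind i j h hcon
          · subst h; exact G.loopless.irrefl _ hcon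
          · exact hind j i h hcon.symm
        have hxx : ∀ i j, i ≠ j → G.Adj (x i) (x j) := by
          intro i j hij
          rcases lt_or_gt_of_ne hij with h | h
          · exact hadj i j h
          · exact (hadj j i h).symm
        have hxinj : ∀ i j, x i = x j → i = j := by
          intro i j hij
          by_contra hne
          rcases lt_or_gt_of_ne hne with h | h
          · exact absurd hij (hmono i j h).ne
          · exact absurd hij.symm (hmono j i h).ne
        have hdinj : ∀ i j, d i = d j → i = j := by
          intro i j hij
          by_contra hne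
          rcases lt_or_gt_of_ne hne with h | h
          · exact absurd hij (hasc i j h).ne
          · exact absurd hij.symm (hasc j i h).ne
        have hxd : ∀ i j, x i ≠ d j := by
          intro i j hij
          rcases lt_trichotomy i j with h | h | h
          · exact hdx i j h hij.symm
          · subst h; exact absurd hij.symm (hdlt i).ne
          · have := (hdlt j).trans (hmono j i h)
            exact absurd hij.symm this.ne
        -- nonadjacency of `d i` and `x j` for `i < j`
        have hnon : ∀ i j, i < j → ¬ G.Adj (d i) (x j) := fun i j hij =>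
          hnadj (x i) (x j) (d i) (hmono i j hij) (hd i j hij)
        let φ : ℕ ⊕ ℕ → V := fun s => Sum.elim x d s
        have hφ : Function.Injective φ := by
          rintro (i | i) (j | j) hij
          · exact congrArg _ (hxinj i j hij)
          · exact absurd hij (hxd i j)
          · exact absurd hij.symm (hxd j i)
          · exact congrArg _ (hdinj i j hij)
        by_cases hA0 : A = 0
        · right
          have hno : ∀ i j, i < j → ¬ G.Adj (d j) (x i) := by
            intro i j hij hcon
            have := hAeq i j hij
            rw [if_pos hcon, hA0] at this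
            omega
          have hiff : ∀ i j, G.Adj (x i) (d j) ↔ i = j := by
            intro i j
            constructor
            · intro h
              rcases lt_trichotomy i j with h' | h' | h'
              · exact absurd h.symm (hno i j h')
              · exact h'
              · exact absurd h.symm (hnon j i h')
            · rintro rfl
              exact (hdadj i).symm
          refine ⟨⟨⟨φ, hφ⟩, ?_⟩⟩
          rintro (i | i) (j | j)
          · exact ⟨fun h h' => G.loopless.irrefl _ (by subst h'; exact h), fun h => hxx i j h⟩
          · exact hiff i j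
          · exact (G.adj_comm _ _).trans (hiff j i)
          · exact ⟨fun h => absurd h (hind' i j), fun h => h.elim⟩
        · left
          have hyes : ∀ i j, i < j → G.Adj (d j) (x i) := by
            intro i j hij
            by_contra hcon
            have := hAeq i j hij
            rw [if_neg hcon] at this
            exact hA0 this.symm
          have hiff : ∀ i j, G.Adj (x i) (d j) ↔ i ≤ j := by
            intro i j
            constructor
            · intro h
              by_contra h'
              exact hnon j i (by omega) h.symm
            · intro h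
              rcases Nat.lt_or_eq_of_le h with h' | h'
              · exact (hyes i j h').symm
              · subst h'; exact (hdadj i).symm
          refine ⟨⟨⟨φ, hφ⟩, ?_⟩⟩
          rintro (i | i) (j | j)
          · exact ⟨fun h h' => G.loopless.irrefl _ (by subst h'; exact h), fun h => hxx i j h⟩
          · exact hiff i j
          · exact (G.adj_comm _ _).trans (hiff j i)
          · exact ⟨fun h => absurd h (hind' i j), fun h => h.elim⟩
      · -- the `d i` form a monochromatic clique lower down
        have hdd : ∀ i j, i < j → G.Adj (d i) (d j) := by
          intro i j hij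
          by_contra hcon
          have := hCeq i j hij
          rw [if_neg hcon] at this
          exact hC0 this.symm
        have hFd : ∀ i j, i < j → F (d j) (d i) = C - 1 := by
          intro i j hij
          have := hCeq i j hij
          rw [if_pos (hdd i j hij)] at this
          omega
        exact IH (d 0) (hx0 ▸ hdlt 0) d rfl hasc hdd ⟨C - 1, hFd⟩
  -- conclusion
  refine ⟨f, hf, ?_⟩
  intro x hxinj hadj m hm
  apply hno
  obtain ⟨φ, hφ⟩ := exists_increasing_or_nonincreasing_subseq (fun a b : V => a < b) x
  have hinc : ∀ i j, i < j → x (φ i) < x (φ j) := by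
    rcases hφ with h | h
    · exact h
    · exfalso
      have hdec : ∀ i j, i < j → x (φ j) < x (φ i) := by
        intro i j hij
        have h1 := h i j hij
        have h2 : x (φ i) ≠ x (φ j) := fun h' => (ne_of_lt hij) (φ.injective (hxinj h'))
        exact lt_of_le_of_ne (not_lt.1 h1) h2.symm
      obtain ⟨_, ⟨n, rfl⟩, hmin⟩ := WellFounded.has_min wf (Set.range (fun n => x (φ n)))
        ⟨_, ⟨0, rfl⟩⟩
      exact hmin (x (φ (n + 1))) ⟨n + 1, rfl⟩ (hdec n (n + 1) (by omega))
  refine main (x (φ 0)) (fun i => x (φ i)) rfl hinc ?_ ⟨m, ?_⟩
  · intro i j hij
    exact hadj _ _ (fun h => (ne_of_lt hij) (φ.injective h))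
  · intro i j hij
    have := hm (φ i) (φ j) (fun h => (ne_of_lt hij) (φ.injective h))
    simp only [f, if_pos (hinc i j hij)] at this
    exact this

/-- **Theorem.** If the edge set of a good graph is covered by countably many graphs `H n`, then
one of the graphs `H n` contains the half split graph or the matching split graph as an induced
subgraph. (With all `H n` equal to `G`: every good graph contains one of them.) -/
theorem result {V : Type u} (G : SimpleGraph V) (hG : Good G) (H : ℕ → SimpleGraph V)
    (hH : ∀ x y, G.Adj x y ↔ ∃ n, (H n).Adj x y) :
    ∃ n, Nonempty (halfSplit ↪g H n) ∨ Nonempty (matchSplit ↪g H n) := by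
  classical
  by_contra hcon
  push Not at hcon
  have hcount : ∀ n, ∀ S : Set V, (H n).IsClique S → S.Countable := by
    intro n S hS
    apply hG.1
    intro a ha b hb hab
    exact (hH a b).2 ⟨n, hS ha hb hab⟩
  have hex := fun n => exists_colouring (H n) (hcount n) (by
    rintro (h | h)
    · exact (not_nonempty_iff.2 (hcon n).1) h
    · exact (not_nonempty_iff.2 (hcon n).2) h)
  choose f hf hmono using hex
  let N : V → V → ℕ := fun x y => sInf {n | (H n).Adj x y}
  have hN : ∀ x y, N x y = N y x := by
    intro x y
    have : {n | (H n).Adj x y} = {n | (H n).Adj y x} := by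
      ext n; exact (H n).adj_comm x y
    simp only [N, this]
  refine not_good_of G (fun x y => Nat.pair (N x y) (f (N x y) x y)) ?_ ?_ hG
  · intro x y
    show Nat.pair (N x y) (f (N x y) x y) = Nat.pair (N y x) (f (N y x) y x)
    rw [hN y x, hf (N x y) y x]
  · intro x hxinj hadj m hm
    have hm' : ∀ i j, i ≠ j → N (x i) (x j) = (Nat.unpair m).1 ∧
        f (N (x i) (x j)) (x i) (x j) = (Nat.unpair m).2 := by
      intro i j hij
      have h1 := hm i j hij
      rw [← h1]
      simp
    refine hmono (Nat.unpair m).1 x hxinj ?_ (Nat.unpair m).2 ?_
    · intro i j hij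
      have hne : {n | (H n).Adj (x i) (x j)}.Nonempty := (hH _ _).1 (hadj i j hij)
      have h1 : (H (N (x i) (x j))).Adj (x i) (x j) := Nat.sInf_mem hne
      rw [(hm' i j hij).1] at h1
      exact h1
    · intro i j hij
      have h1 := (hm' i j hij).2
      rw [(hm' i j hij).1] at h1
      exact h1

end Pool.Agent.Results.MP_e45b43_lc.SplitPattern
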